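import Pool.Agent.Lib.MP_eee7a8_ag.TB.Iface4
import Pool.Agent.Lib.MP_eee7a8_ag.TB.H14.Tool

/-!
# TAGBR, group R: the one step recursion for supports
-/

open Matrix

namespace Pool.Agent.Lib.MP_eee7a8_ag.TB.C72

open PB.H14

variable {G : Subgroup SLZ}

theorem sim_refl {e : Option (Cusp × Cusp)} (a : Cusp) : Sim G e a a := Relation.EqvGen.refl _

theorem sim_symm {e : Option (Cusp × Cusp)} {a b : Cusp} (h : Sim G e a b) : Sim G e b a :=
  Relation.EqvGen.symm _ _ h

theorem sim_trans {e : Option (Cusp × Cusp)} {a b c : Cusp} (h : Sim G e a b)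
    (h' : Sim G e b c) : Sim G e a c :=
  Relation.EqvGen.trans _ _ _ h h'

theorem ge_sim {e : Option (Cusp × Cusp)} {a b : Cusp} (h : Ge G e a b) : Sim G e a b :=
  Relation.EqvGen.rel _ _ h

theorem nc_symm {e : Option (Cusp × Cusp)} {a b : Cusp} (h : NC G e a b) : NC G e b a :=
  fun c d hcd hx => h c d hcd (cross_comm_left.1 hx)

theorem ge_same {e : Option (Cusp × Cusp)} {a b c d : Cusp} (h : Ge G e a b)
    (h' : SameArc G a b c d) : Ge G e c d := by
  obtain ⟨p, hp, hs⟩ := h
  exact ⟨p, hp, sameArc_trans hs h'⟩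

theorem coeff_mul_single' {ι : Type} (f : LP ι) (v m : ι → ℤ) :
    (f * AddMonoidAlgebra.single v 1).coeff m = f.coeff (m - v) := by
  rw [AddMonoidAlgebra.coeff_mul_single_eq_coeff_mul (m - v) (fun m' _ => by
    constructor
    · intro h; rw [← h]; abel
    · intro h; rw [h]; abel), mul_one]

/-- The one step recursion. -/
theorem step {ι : Type} {T : Fam ι} {P : Cusp → Cusp → LP ι} (hP : IsPol G T P)
    {x y c d : Cusp} (hxc : T.E G x c) (hxd : T.E G x d) (hcd : T.E G c d) (hx : Cross x y c d)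
    (m : ι → ℤ) :
    (P x y).coeff m = (P d y).coeff (m + T.del G c d - T.del G x c) +
      (P c y).coeff (m + T.del G c d - T.del G x d) := by
  have h1 := hP.ptolemy x y c d hx
  rw [hP.edge c d hcd, hP.edge x c hxc, hP.edge x d hxd, mul_comm (AddMonoidAlgebra.single _ _),
    mul_comm (AddMonoidAlgebra.single _ _), hP.symm y d, hP.symm y c] at h1
  have h2 := congrArg (fun f : LP ι => f.coeff (m + T.del G c d)) h1
  simp only [AddMonoidAlgebra.coeff_add, Finsupp.add_apply, coeff_mul_single'] at h2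
  rw [add_sub_cancel_right] at h2
  exact h2

theorem mem_supp {ι : Type} {f : LP ι} {m : ι → ℤ} : m ∈ f.coeff.support ↔ f.coeff m ≠ 0 :=
  Finsupp.mem_support_iff

theorem step_supp {ι : Type} {T : Fam ι} {P : Cusp → Cusp → LP ι} (hP : IsPol G T P)
    {x y c d : Cusp} (hxc : T.E G x c) (hxd : T.E G x d) (hcd : T.E G c d) (hx : Cross x y c d)
    (m : ι → ℤ) :
    m ∈ (P x y).coeff.support ↔ (m + T.del G c d - T.del G x c) ∈ (P d y).coeff.support ∨
      (m + T.del G c d - T.del G x d) ∈ (P c y).coeff.support := by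
  rw [mem_supp, mem_supp, mem_supp, step hP hxc hxd hcd hx]
  omega

theorem edge_supp {ι : Type} {T : Fam ι} {P : Cusp → Cusp → LP ι} (hP : IsPol G T P)
    {x y : Cusp} (h : T.E G x y) (m : ι → ℤ) :
    m ∈ (P x y).coeff.support ↔ m = T.del G x y := by
  classical
  rw [hP.edge x y h, mem_supp, AddMonoidAlgebra.coeff_single, Finsupp.single_apply]
  constructor
  · intro h
    by_contra h'
    exact h (if_neg (fun h'' => h' h''.symm))
  · intro h
    rw [if_pos h.symm]
    exact one_ne_zero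

theorem del_nonneg {ι : Type} {T : Fam ι} (hT : T.IsTri G) (a b : Cusp) (i : ι) :
    0 ≤ T.del G a b i := by
  classical
  by_cases h : T.E G a b
  · obtain ⟨j, hj⟩ := h
    rw [del_of_same hT hj, Pi.single_apply]
    split_ifs <;> norm_num
  · unfold Fam.del
    rw [dif_neg h]
    exact le_rfl

/-- Exponents at the translates of `e`. -/
theorem del_ge {e : Option (Cusp × Cusp)} {ι : Type} {T : Fam ι} (hT : T.IsTri G) {a b : Cusp}
    (h : ¬ Ge G e a b) {i : ι} (hi : Ge G e (T.s i) (T.t i)) : T.del G a b i = 0 := by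
  classical
  by_cases hE : T.E G a b
  · obtain ⟨j, hj⟩ := hE
    rw [del_of_same hT hj, Pi.single_apply, if_neg]
    rintro rfl
    exact h (ge_same hi hj)
  · unfold Fam.del
    rw [dif_neg hE]
    rfl

theorem del_ge_one {e : Option (Cusp × Cusp)} {ι : Type} {T : Fam ι} (hT : T.IsTri G)
    {a b : Cusp} (hE : T.E G a b) (h : Ge G e a b) :
    ∃ i, Ge G e (T.s i) (T.t i) ∧ T.del G a b i = 1 := by
  classical
  obtain ⟨j, hj⟩ := hE
  refine ⟨j, ge_same h (sameArc_comm hj), ?_⟩
  rw [del_of_same hT hj, Pi.single_apply, if_pos rfl]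

theorem rz_del {e : Option (Cusp × Cusp)} {ι : Type} {T : Fam ι} (hT : T.IsTri G) {a b : Cusp}
    (h : ¬ Ge G e a b) : Rz G e T (T.del G a b) := fun _ hi => del_ge hT h hi

theorem rz_add {e : Option (Cusp × Cusp)} {ι : Type} {T : Fam ι} {m m' : ι → ℤ}
    (h : Rz G e T m) (h' : Rz G e T m') : Rz G e T (m + m') := fun i hi => by
  rw [Pi.add_apply, h i hi, h' i hi, add_zero]

theorem rz_sub {e : Option (Cusp × Cusp)} {ι : Type} {T : Fam ι} {m m' : ι → ℤ}
    (h : Rz G e T m) (h' : Rz G e T m') : Rz G e T (m - m') := fun i hi => by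
  rw [Pi.sub_apply, h i hi, h' i hi, sub_zero]

/-- The number of edges of `T` crossing `ab`. -/
noncomputable def nx (G : Subgroup SLZ) {ι : Type} (T : Fam ι) (a b : Cusp) : ℕ :=
  Set.ncard {p : Cusp × Cusp | T.E G p.1 p.2 ∧ Cross p.1 p.2 a b}

theorem nx_symm {ι : Type} (T : Fam ι) (a b : Cusp) : nx G T a b = nx G T b a := by
  unfold nx
  congr 1
  ext p
  simp only [Set.mem_ofPred_eq]
  rw [cross_comm_right]

/-- Induction on the number of crossed edges. -/
theorem star_induction {ι : Type} [Finite ι] {T : Fam ι}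
    (hT : T.IsTri G) (C : Cusp → Cusp → Prop)
    (hrefl : ∀ x, C x x) (hedge : ∀ x y, T.E G x y → C x y)
    (hstep : ∀ x y c d, T.E G x c → T.E G x d → T.E G c d → Cross x y c d →
      (∀ x' y', nx G T x' y' < nx G T x y → C x' y') → C x y) : ∀ x y, C x y := by
  have key : ∀ n : ℕ, ∀ x y, nx G T x y = n → C x y := by
    intro n
    induction n using Nat.strong_induction_on with
    | _ n ih =>
      intro x y hn
      by_cases hxy : x = y
      · rw [← hxy]; exact hrefl x
      · rcases hT.star x y hxy with hE | ⟨c, d, h1, h2, h3, h4⟩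
        · exact hedge x y hE
        · exact hstep x y c d h1 h2 h3 h4 (fun x' y' hlt => ih _ (hn ▸ hlt) x' y' rfl)
  exact fun x y => key _ x y rfl

theorem first_lt (h0 : FirstStatement) {ι : Type} [Finite ι] {T : Fam ι}
    (hT : T.IsTri G) {x y c d : Cusp} (h1 : T.E G x c) (h2 : T.E G x d) (h3 : T.E G c d)
    (h4 : Cross x y c d) : nx G T d y < nx G T x y ∧ nx G T c y < nx G T x y :=
  h0 G ι T hT x y c d h1 h2 h3 h4

end Pool.Agent.Lib.MP_eee7a8_ag.TB.C72
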