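import Pool.Agent.Lib.MP_eee7a8_ag.TB.C72.RecLib

/-!
# TAGBR, module RECB
-/

open Matrix

namespace Pool.Agent.Lib.MP_eee7a8_ag.TB.C72

open PB.H14

/-- The ingredients of the induction at a pair `xy` with first crossed edge `cd`. -/
theorem nc_step (htool : ToolStatement) {G : Subgroup SLZ} (hG : IsSurface G)
    {e : Option (Cusp × Cusp)} (he : Adm G e) {ι : Type} {T : Fam ι} (hT : Good G e T)
    {x y c d : Cusp} (h3 : T.E G c d) (h4 : Cross x y c d) (hnc : NC G e x y) :
    NC G e c d ∧ NC G e x c ∧ NC G e y d ∧ NC G e x d ∧ NC G e y c ∧ ¬ Ge G e c d := by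
  have hcd : NC G e c d := fun c' d' h' hx => hT.nocross c d c' d' h3 (hT.mem _ _ h') hx
  obtain ⟨-, -, -, -, -, h6⟩ := htool G hG e he
  obtain ⟨h7, h8, h9, h10⟩ := h6 x y c d h4 hnc hcd
  exact ⟨hcd, h7, h8, h9, h10, fun h => hnc c d h h4⟩

theorem recb (hfirst : FirstStatement) (htool : ToolStatement) (hpoly : PolyStatement) :
    RecbStatement := by
  intro G hG e he ι _ T hT P hP
  have hgeE : ∀ a b, T.E G a b → Sim G e a b → Ge G e a b := by
    intro a b hab hs
    refine hpoly G hG ι T hT.toIsTri (Ge G e) ⟨hT.mem, fun a b c d h h' => ge_same h' h⟩ ?_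
      a b hab hs
    intro a b c h1 h2 h3
    exfalso
    by_cases hac : a = c
    · subst hac
      obtain ⟨i, g, hg, h | h⟩ := h3
      · exact hT.ne i (MulAction.injective g (h.1.trans h.2.symm))
      · exact hT.ne i (MulAction.injective g (h.1.trans h.2.symm))
    · exact hT.nofold a b c h1 h2 hac h3
  have hself : ∀ x, ∀ m, ¬ m ∈ (P x x).coeff.support := by
    intro x m hm
    rw [hP.self x] at hm
    exact (mem_supp.1 hm) rfl
  have hnn : ∀ a b, NC G e a b → ∀ m ∈ (P a b).coeff.support, ∀ i,
      Ge G e (T.s i) (T.t i) → 0 ≤ m i := by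
    refine star_induction hT.toIsTri
      (C := fun a b => NC G e a b → ∀ m ∈ (P a b).coeff.support, ∀ i,
        Ge G e (T.s i) (T.t i) → 0 ≤ m i) ?_ ?_ ?_
    · intro x _ m hm
      exact absurd hm (hself x m)
    · intro x y hE _ m hm i _
      rw [edge_supp hP hE] at hm
      rw [hm]
      exact del_nonneg hT.toIsTri x y i
    · intro x y c d h1 h2 h3 h4 ih hnc m hm i hi
      obtain ⟨hcd, -, hyd, -, hyc, hncd⟩ := nc_step htool hG he hT h3 h4 hnc
      obtain ⟨hl1, hl2⟩ := first_lt hfirst hT.toIsTri h1 h2 h3 h4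
      have hz := del_ge hT.toIsTri hncd hi
      rcases (step_supp hP h1 h2 h3 h4 m).1 hm with h5 | h5
      · have h6 := ih d y hl1 (nc_symm hyd) _ h5 i hi
        have h7 := del_nonneg hT.toIsTri x c i
        rw [Pi.sub_apply, Pi.add_apply, hz] at h6
        linarith
      · have h6 := ih c y hl2 (nc_symm hyc) _ h5 i hi
        have h7 := del_nonneg hT.toIsTri x d i
        rw [Pi.sub_apply, Pi.add_apply, hz] at h6
        linarith
  have htool4 := (htool G hG e he).2.2.2.1
  -- a term of the recursion which survives at `e = 0`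
  have halive : ∀ m : ι → ℤ, Rz G e T m → ∀ x c d y, NC G e d y → ¬ Ge G e c d →
      T.E G x c → m + T.del G c d - T.del G x c ∈ (P d y).coeff.support →
      ¬ Ge G e x c ∧ Rz G e T (m + T.del G c d - T.del G x c) := by
    intro m hm x c d y hnc hcd hE hs
    have h1 : ¬ Ge G e x c := by
      intro hge
      obtain ⟨i, hi, h1⟩ := del_ge_one hT.toIsTri hE hge
      have h2 := hnn d y hnc _ hs i hi
      rw [Pi.sub_apply, Pi.add_apply, hm i hi, del_ge hT.toIsTri hcd hi, h1] at h2
      norm_num at h2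
    exact ⟨h1, rz_sub (rz_add hm (rz_del hT.toIsTri hcd)) (rz_del hT.toIsTri h1)⟩
  have h3 : ∀ a b, NC G e a b → Sim G e a b → ∀ m ∈ (P a b).coeff.support, ¬ Rz G e T m := by
    refine star_induction hT.toIsTri
      (C := fun a b => NC G e a b → Sim G e a b → ∀ m ∈ (P a b).coeff.support,
        ¬ Rz G e T m) ?_ ?_ ?_
    · intro x _ _ m hm
      exact absurd hm (hself x m)
    · intro x y hE _ hs m hm hrz
      rw [edge_supp hP hE] at hm
      obtain ⟨i, hi, h1⟩ := del_ge_one hT.toIsTri hE (hgeE x y hE hs)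
      have h2 := hrz i hi
      rw [hm, h1] at h2
      norm_num at h2
    · intro x y c d h1 h2 h3 h4 ih hnc hs m hm hrz
      obtain ⟨hcd, -, hyd, -, hyc, hncd⟩ := nc_step htool hG he hT h3 h4 hnc
      obtain ⟨hl1, hl2⟩ := first_lt hfirst hT.toIsTri h1 h2 h3 h4
      have h5 := htool4 x y c d hs hcd h4
      rcases (step_supp hP h1 h2 h3 h4 m).1 hm with h6 | h6
      · obtain ⟨h7, h8⟩ := halive m hrz x c d y (nc_symm hyd) hncd h1 h6
        have h9 : Sim G e x d := h5.resolve_left (fun h => h7 (hgeE x c h1 h))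
        exact ih d y hl1 (nc_symm hyd) (sim_trans (sim_symm h9) hs) _ h6 h8
      · rw [del_symm hT.toIsTri c d] at h6
        obtain ⟨h7, h8⟩ := halive m hrz x d c y (nc_symm hyc)
          (fun h => hncd (Ge_symm h)) h2 h6
        have h9 : Sim G e x c := h5.resolve_right (fun h => h7 (hgeE x d h2 h))
        exact ih c y hl2 (nc_symm hyc) (sim_trans (sim_symm h9) hs) _ h6 h8
  have h4 : ∀ a b, NC G e a b → ¬ Sim G e a b → ∃ m ∈ (P a b).coeff.support, Rz G e T m := by
    refine star_induction hT.toIsTri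
      (C := fun a b => NC G e a b → ¬ Sim G e a b → ∃ m ∈ (P a b).coeff.support,
        Rz G e T m) ?_ ?_ ?_
    · intro x _ hs
      exact absurd (sim_refl x) hs
    · intro x y hE _ hs
      exact ⟨T.del G x y, (edge_supp hP hE _).2 rfl,
        rz_del hT.toIsTri (fun h => hs (ge_sim h))⟩
    · intro x y c d h1 h2 h3 h4 ih hnc hs
      obtain ⟨hcd, -, hyd, -, hyc, hncd⟩ := nc_step htool hG he hT h3 h4 hnc
      obtain ⟨hl1, hl2⟩ := first_lt hfirst hT.toIsTri h1 h2 h3 h4
      have hscd : ¬ Sim G e c d := fun h => hncd (hgeE c d h3 h)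
      by_cases hA : ¬ Sim G e x c ∧ ¬ Sim G e d y
      · obtain ⟨m, hm, hrz⟩ := ih d y hl1 (nc_symm hyd) hA.2
        refine ⟨m + T.del G x c - T.del G c d, ?_, ?_⟩
        · rw [step_supp hP h1 h2 h3 h4]
          left
          have : m + T.del G x c - T.del G c d + T.del G c d - T.del G x c = m := by abel
          rw [this]
          exact hm
        · exact rz_sub (rz_add hrz (rz_del hT.toIsTri (fun h => hA.1 (ge_sim h))))
            (rz_del hT.toIsTri hncd)
      · by_cases hB : ¬ Sim G e x d ∧ ¬ Sim G e c y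
        · obtain ⟨m, hm, hrz⟩ := ih c y hl2 (nc_symm hyc) hB.2
          refine ⟨m + T.del G x d - T.del G c d, ?_, ?_⟩
          · rw [step_supp hP h1 h2 h3 h4]
            right
            have : m + T.del G x d - T.del G c d + T.del G c d - T.del G x d = m := by abel
            rw [this]
            exact hm
          · exact rz_sub (rz_add hrz (rz_del hT.toIsTri (fun h => hB.1 (ge_sim h))))
              (rz_del hT.toIsTri hncd)
        · exfalso
          rw [not_and_or, not_not, not_not] at hA hB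
          rcases hA with hA | hA <;> rcases hB with hB | hB
          · exact hscd (sim_trans (sim_symm hA) hB)
          · exact hs (sim_trans hA hB)
          · exact hs (sim_trans hB hA)
          · exact hscd (sim_trans hB (sim_symm hA))
  exact ⟨hgeE, hnn, h3, h4⟩

end Pool.Agent.Lib.MP_eee7a8_ag.TB.C72
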