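import Pool.Agent.Lib.MP_eee7a8_ag.TB.C72.Recb

/-!
# TAGBR, module X1
-/

open Matrix

namespace Pool.Agent.Lib.MP_eee7a8_ag.TB.C72

open PB.H14

variable {G : Subgroup SLZ}

/-- A term of the recursion which survives at `e = 0`. -/
theorem alive {e : Option (Cusp × Cusp)} {ι : Type} {T : Fam ι} (hT : Good G e T)
    {P : Cusp → Cusp → LP ι}
    (hnn : ∀ a b, NC G e a b → ∀ m ∈ (P a b).coeff.support, ∀ i,
      Ge G e (T.s i) (T.t i) → 0 ≤ m i)
    {m : ι → ℤ} (hm : Rz G e T m) {x c d y : Cusp} (hnc : NC G e d y) (hcd : ¬ Ge G e c d)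
    (hE : T.E G x c) (hs : m + T.del G c d - T.del G x c ∈ (P d y).coeff.support) :
    ¬ Ge G e x c ∧ Rz G e T (m + T.del G c d - T.del G x c) := by
  have h1 : ¬ Ge G e x c := by
    intro hge
    obtain ⟨i, hi, h1⟩ := del_ge_one hT.toIsTri hE hge
    have h2 := hnn d y hnc _ hs i hi
    rw [Pi.sub_apply, Pi.add_apply, hm i hi, del_ge hT.toIsTri hcd hi, h1] at h2
    norm_num at h2
  exact ⟨h1, rz_sub (rz_add hm (rz_del hT.toIsTri hcd)) (rz_del hT.toIsTri h1)⟩

theorem pair_add {ι : Type} [Fintype ι] (T : Fam ι) (m m' : ι → ℤ) (X : Cusp → Cusp → ℤ) :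
    pair T (m + m') X = pair T m X + pair T m' X := by
  unfold pair
  rw [← Finset.sum_add_distrib]
  exact Finset.sum_congr rfl fun i _ => by rw [Pi.add_apply, add_mul]

theorem pair_sub {ι : Type} [Fintype ι] (T : Fam ι) (m m' : ι → ℤ) (X : Cusp → Cusp → ℤ) :
    pair T (m - m') X = pair T m X - pair T m' X := by
  unfold pair
  rw [← Finset.sum_sub_distrib]
  exact Finset.sum_congr rfl fun i _ => by rw [Pi.sub_apply, sub_mul]

theorem super_same {e : Option (Cusp × Cusp)} {X : Cusp → Cusp → ℤ} (hX : SuperT G e X)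
    {a b c d : Cusp} (h : SameArc G a b c d) : X a b = X c d := by
  obtain ⟨g, hg, ⟨rfl, rfl⟩ | ⟨rfl, rfl⟩⟩ := h
  · rw [hX.inv g hg]
  · rw [hX.symm, hX.inv g hg]

theorem pair_del {e : Option (Cusp × Cusp)} {X : Cusp → Cusp → ℤ} (hX : SuperT G e X)
    {ι : Type} [Fintype ι] {T : Fam ι} (hT : T.IsTri G) {a b : Cusp} (h : T.E G a b) :
    pair T (T.del G a b) X = X a b := by
  classical
  obtain ⟨j, hj⟩ := h
  rw [del_of_same hT hj, pair, Finset.sum_eq_single j]
  · rw [Pi.single_eq_same, one_mul, super_same hX hj]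
  · intro i _ hi
    rw [Pi.single_eq_of_ne hi, zero_mul]
  · intro h
    exact absurd (Finset.mem_univ j) h

/-- One step of the upper bound. -/
theorem x1_step {e : Option (Cusp × Cusp)} {X : Cusp → Cusp → ℤ} (hX : SuperT G e X)
    {ι : Type} [Fintype ι] {T : Fam ι} (hT : T.IsTri G) {x y c d : Cusp} {m : ι → ℤ}
    (h1 : T.E G x c) (h3 : T.E G c d) {n : ℤ}
    (h5 : pair T (m + T.del G c d - T.del G x c) X ≤ X d y)
    (h6 : X x c + X y d + n ≤ X x y + X c d) :
    pair T m X + n ≤ X x y := by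
  rw [pair_sub, pair_add, pair_del hX hT h1, pair_del hX hT h3] at h5
  rw [hX.symm y d] at h6
  linarith

theorem x1 (hfirst : FirstStatement) (htool : ToolStatement) (hrecb : RecbStatement) :
    X1Statement := by
  intro G hG e he ι _ T hT P hP X hX
  obtain ⟨r1, r2, r3, r4⟩ := hrecb G hG e he ι T hT P hP
  refine star_induction hT.toIsTri
    (C := fun a b => NC G e a b → ¬ Sim G e a b → ∀ m ∈ (P a b).coeff.support,
      Rz G e T m → pair T m X ≤ X a b) ?_ ?_ ?_
  · intro x _ hs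
    exact absurd (sim_refl x) hs
  · intro x y hE _ _ m hm _
    rw [(edge_supp hP hE m).1 hm, pair_del hX hT.toIsTri hE]
  · intro x y c d h1 h2 h3 h4 ih hnc hs m hm hrz
    obtain ⟨hcd, -, hyd, -, hyc, hncd⟩ := nc_step htool hG he hT h3 h4 hnc
    obtain ⟨hl1, hl2⟩ := first_lt hfirst hT.toIsTri h1 h2 h3 h4
    have hscd : ¬ Sim G e c d := fun h => hncd (r1 c d h3 h)
    rcases (step_supp hP h1 h2 h3 h4 m).1 hm with h6 | h6
    · obtain ⟨h7, h8⟩ := alive hT r2 hrz (nc_symm hyd) hncd h1 h6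
      have h9 : ¬ Sim G e x c := fun h => h7 (r1 x c h1 h)
      have h10 : ¬ Sim G e d y := fun h => r3 d y (nc_symm hyd) h _ h6 h8
      have h11 := ih d y hl1 (nc_symm hyd) h10 _ h6 h8
      have h12 := hX.ineq x y c d h4 hnc hcd h9 (fun h => h10 (sim_symm h)) hs hscd
      have := x1_step hX hT.toIsTri h1 h3 h11 (n := 0) (by linarith)
      linarith
    · rw [del_symm hT.toIsTri c d] at h6
      obtain ⟨h7, h8⟩ := alive hT r2 hrz (nc_symm hyc) (fun h => hncd (Ge_symm h)) h2 h6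
      have h9 : ¬ Sim G e x d := fun h => h7 (r1 x d h2 h)
      have h10 : ¬ Sim G e c y := fun h => r3 c y (nc_symm hyc) h _ h6 h8
      have h11 := ih c y hl2 (nc_symm hyc) h10 _ h6 h8
      have h12 := hX.ineq x y d c (cross_comm_right.1 h4) hnc (nc_symm hcd) h9
        (fun h => h10 (sim_symm h)) hs (fun h => hscd (sim_symm h))
      have := x1_step hX hT.toIsTri h2 (E_symm h3) h11 (n := 0) (by linarith)
      linarith

end Pool.Agent.Lib.MP_eee7a8_ag.TB.C72
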