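import Pool.Agent.Lib.MP_eee7a8_ag.TB.C72.X1

/-!
# TAGBR, module X1S
-/

open Matrix

namespace Pool.Agent.Lib.MP_eee7a8_ag.TB.C72

open PB.H14

variable {G : Subgroup SLZ}

theorem cross_iff (x y c d : Cusp) :
    Cross x y c d ↔ (dt c x * dt d x) * (dt c y * dt d y) < 0 := by
  unfold Cross
  rw [dt_symm x c, dt_symm y c, dt_symm x d, dt_symm y d]
  have : -dt c x * -dt c y * (-dt d x * -dt d y) = dt c x * dt d x * (dt c y * dt d y) := by ring
  rw [this]

theorem sign_aux {p q r : ℤ} (h1 : 0 < p * q) (h2 : p * r < 0) : q * r < 0 := by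
  have h3 : (p * q) * (p * r) < 0 := mul_neg_of_pos_of_neg h1 h2
  have h4 : (p * q) * (p * r) = (p * p) * (q * r) := by ring
  rw [h4] at h3
  by_contra h5
  exact absurd h3 (not_lt.2 (mul_nonneg (mul_self_nonneg p) (not_lt.1 h5)))

/-- Moving one end of a pair to an equivalent cusp keeps the crossing with `cd`. -/
theorem cross_slide {e : Option (Cusp × Cusp)} {x a y c d : Cusp} (h : Cross x y c d)
    (hs : Sim G e x a) (hnc : NC G e c d) (h1 : ¬ Sim G e x c) (h2 : ¬ Sim G e x d) :
    Cross a y c d := by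
  rw [cross_iff] at h ⊢
  exact sign_aux (tool_sep hs hnc ⟨h1, h2⟩) h

/-- The claim of the induction. -/
def Cl (G : Subgroup SLZ) (e : Option (Cusp × Cusp)) {ι : Type} [Fintype ι] (T : Fam ι)
    (P : Cusp → Cusp → LP ι) (X : Cusp → Cusp → ℤ) (x y : Cusp) : Prop :=
  (∃ x' y', Sim G e x x' ∧ Sim G e y y' ∧ T.E G x' y' ∧ ∃ ν ∈ KerL G e T,
    (P x y).coeff (T.del G x' y' + ν) = 1 ∧ Rz G e T (T.del G x' y' + ν) ∧
    ∀ m ∈ (P x y).coeff.support, Rz G e T m → m = T.del G x' y' + ν) ∨
  (∀ m ∈ (P x y).coeff.support, Rz G e T m → pair T m X ≤ X x y - 1)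

/-- The premise of the induction. -/
def Pr (G : Subgroup SLZ) (e : Option (Cusp × Cusp)) {κ : Type} (Q : Fam κ)
    (X : Cusp → Cusp → ℤ) (x y : Cusp) : Prop :=
  NC G e x y ∧ ¬ Sim G e x y ∧ ∃ a b, Q.E G a b ∧ Sim G e a x ∧ Sim G e b y ∧ X a b = X x y

theorem Pr.symm {e : Option (Cusp × Cusp)} {κ : Type} {Q : Fam κ} {X : Cusp → Cusp → ℤ}
    (hX : SuperT G e X) {x y : Cusp} (h : Pr G e Q X x y) : Pr G e Q X y x := by
  obtain ⟨h1, h2, a, b, h3, h4, h5, h6⟩ := h
  exact ⟨nc_symm h1, fun h => h2 (sim_symm h), b, a, E_symm h3, h5, h4, by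
    rw [hX.symm b a, h6, hX.symm]⟩

theorem Cl.symm {e : Option (Cusp × Cusp)} {ι : Type} [Fintype ι] {T : Fam ι}
    (hT : T.IsTri G) {P : Cusp → Cusp → LP ι} (hP : IsPol G T P) {X : Cusp → Cusp → ℤ}
    (hX : SuperT G e X) {x y : Cusp} (h : Cl G e T P X x y) : Cl G e T P X y x := by
  rcases h with ⟨x', y', h1, h2, h3, ν, h4, h5, h6, h7⟩ | h
  · left
    refine ⟨y', x', h2, h1, E_symm h3, ν, h4, ?_, ?_, ?_⟩
    · rw [del_symm hT, hP.symm]; exact h5
    · rw [del_symm hT]; exact h6
    · rw [del_symm hT, hP.symm]; exact h7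
  · right
    rw [hP.symm, hX.symm]
    exact h

/-- Reduction: the first crossed edge has an end equivalent to `x`. -/
theorem red (htool : ToolStatement) (hG : IsSurface G) {e : Option (Cusp × Cusp)}
    (he : Adm G e) {ι : Type} [Fintype ι] {T : Fam ι} (hT : Good G e T)
    {P : Cusp → Cusp → LP ι} (hP : IsPol G T P)
    (r1 : ∀ a b, T.E G a b → Sim G e a b → Ge G e a b)
    (r2 : ∀ a b, NC G e a b → ∀ m ∈ (P a b).coeff.support, ∀ i,
      Ge G e (T.s i) (T.t i) → 0 ≤ m i)
    {κ : Type} {Q : Fam κ} {X : Cusp → Cusp → ℤ} (hX : SuperT G e X) {x y c d : Cusp}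
    (h1 : T.E G x c) (h2 : T.E G x d) (h3 : T.E G c d) (h4 : Cross x y c d)
    (hpr : Pr G e Q X x y) (hs : Sim G e x c)
    (ih : Pr G e Q X c y → Cl G e T P X c y) : Cl G e T P X x y := by
  obtain ⟨hnc, hxy, a, b, hab, hax, hby, hXab⟩ := hpr
  obtain ⟨hcd, -, hyd, hxd, hyc, hncd⟩ := nc_step htool hG he hT h3 h4 hnc
  have hge : Ge G e x c := r1 x c h1 hs
  have hscd : ¬ Sim G e c d := fun h => hncd (r1 c d h3 h)
  have hsxd : ¬ Sim G e x d := fun h => hscd (sim_trans (sim_symm hs) h)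
  have hscy : ¬ Sim G e c y := fun h => hxy (sim_trans hs h)
  have e1 : X x y = X c y := hX.slide x c y hs hnc (nc_symm hyc) hxy
  have e2 : X x d = X c d := hX.slide x c d hs hxd hcd hsxd
  have hκ : T.del G x d - T.del G c d ∈ KerL G e T :=
    AddSubgroup.subset_closure ⟨x, c, d, hge, h2, h3, rfl⟩
  have hzxd : Rz G e T (T.del G x d) := rz_del hT.toIsTri (fun h => hsxd (ge_sim h))
  have hzcd : Rz G e T (T.del G c d) := rz_del hT.toIsTri hncd
  have hdead : ∀ m : ι → ℤ, Rz G e T m →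
      (P d y).coeff (m + T.del G c d - T.del G x c) = 0 := by
    intro m hm
    by_contra hne
    exact (alive hT r2 hm (nc_symm hyd) hncd h1 (mem_supp.2 hne)).1 hge
  have hcoeff : ∀ m : ι → ℤ, Rz G e T m →
      (P x y).coeff m = (P c y).coeff (m + T.del G c d - T.del G x d) := by
    intro m hm
    rw [step hP h1 h2 h3 h4, hdead m hm, zero_add]
  have hmem : ∀ m : ι → ℤ, Rz G e T m → m ∈ (P x y).coeff.support →
      m + T.del G c d - T.del G x d ∈ (P c y).coeff.support ∧
      Rz G e T (m + T.del G c d - T.del G x d) := by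
    intro m hm hs
    rw [mem_supp, hcoeff m hm, ← mem_supp] at hs
    exact ⟨hs, rz_sub (rz_add hm hzcd) hzxd⟩
  rcases ih ⟨nc_symm hyc, hscy, a, b, hab, sim_trans hax hs, hby, by rw [hXab, e1]⟩ with
    ⟨x', y', h5, h6, h7, ν, h8, h9, h10, h11⟩ | h
  · left
    have hz : Rz G e T (T.del G x' y' + (ν + (T.del G x d - T.del G c d))) := by
      rw [← add_assoc]
      exact rz_add h10 (rz_sub hzxd hzcd)
    refine ⟨x', y', sim_trans hs h5, h6, h7, ν + (T.del G x d - T.del G c d),
      AddSubgroup.add_mem _ h8 hκ, ?_, hz, ?_⟩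
    · rw [hcoeff _ hz]
      have : T.del G x' y' + (ν + (T.del G x d - T.del G c d)) + T.del G c d - T.del G x d =
          T.del G x' y' + ν := by abel
      rw [this, h9]
    · intro m hm hrz
      obtain ⟨h12, h13⟩ := hmem m hrz hm
      have h14 := h11 _ h12 h13
      rw [← add_assoc, ← h14]
      abel
  · right
    intro m hm hrz
    obtain ⟨h12, h13⟩ := hmem m hrz hm
    have h14 := h _ h12 h13
    rw [pair_sub, pair_add, pair_del hX hT.toIsTri h3, pair_del hX hT.toIsTri h2, e2] at h14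
    rw [e1]
    linarith

theorem x1s (hfirst : FirstStatement) (htool : ToolStatement) (hrecb : RecbStatement)
    (hx1 : X1Statement) (hxb : XbSupStatement) : X1sStatement := by
  intro G hG e he ι _ T hT P hP κ _ Q hQ a b hab
  obtain ⟨r1, r2, r3, r4⟩ := hrecb G hG e he ι T hT P hP
  obtain ⟨hX, hunit⟩ := hxb G hG e he κ Q hQ
  obtain ⟨t1, t2, -, t4, -, t6⟩ := htool G hG e he
  have hub := hx1 G hG e he ι T hT P hP (XB G e Q) hX
  have hQnc : ∀ a b, Q.E G a b → NC G e a b := by
    rintro a b ⟨i, g, hg, ⟨rfl, rfl⟩ | ⟨rfl, rfl⟩⟩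
    · exact t2 g hg _ _ (hQ.nc i)
    · exact nc_symm (t2 g hg _ _ (hQ.nc i))
  have hQns : ∀ a b, Q.E G a b → ¬ Sim G e a b := by
    rintro a b ⟨i, g, hg, ⟨rfl, rfl⟩ | ⟨rfl, rfl⟩⟩ h
    · have := t1 g⁻¹ (G.inv_mem hg) _ _ h
      rw [inv_smul_smul, inv_smul_smul] at this
      exact hQ.ns i this
    · have := t1 g⁻¹ (G.inv_mem hg) _ _ h
      rw [inv_smul_smul, inv_smul_smul] at this
      exact hQ.ns i (sim_symm this)
  have key : ∀ x y, Pr G e Q (XB G e Q) x y → Cl G e T P (XB G e Q) x y := by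
    refine star_induction hT.toIsTri
      (C := fun x y => Pr G e Q (XB G e Q) x y → Cl G e T P (XB G e Q) x y) ?_ ?_ ?_
    · intro x h
      exact absurd (sim_refl x) h.2.1
    · intro x y hE h
      left
      refine ⟨x, y, sim_refl x, sim_refl y, hE, 0, AddSubgroup.zero_mem _, ?_, ?_, ?_⟩
      · rw [add_zero, hP.edge x y hE, AddMonoidAlgebra.coeff_single, Finsupp.single_eq_same]
      · rw [add_zero]
        exact rz_del hT.toIsTri (fun hge => h.2.1 (ge_sim hge))
      · intro m hm _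
        rw [add_zero]
        exact (edge_supp hP hE m).1 hm
    · intro x y c d h1 h2 h3 h4 ih hpr
      have hnc := hpr.1
      have hs := hpr.2.1
      obtain ⟨hcd, -, hyd, -, hyc, hncd⟩ := nc_step htool hG he hT h3 h4 hnc
      obtain ⟨hl1, hl2⟩ := first_lt hfirst hT.toIsTri h1 h2 h3 h4
      have hscd : ¬ Sim G e c d := fun h => hncd (r1 c d h3 h)
      by_cases hxc : Sim G e x c
      · exact red htool hG he hT hP r1 r2 hX h1 h2 h3 h4 hpr hxc (ih c y hl2)
      by_cases hxd : Sim G e x d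
      · exact red htool hG he hT hP r1 r2 hX h2 h1 (E_symm h3) (cross_comm_right.1 h4) hpr hxd
          (ih d y hl1)
      by_cases hy : Sim G e y c ∨ Sim G e y d
      · -- go from the other end
        obtain ⟨w, hw, hxw⟩ : ∃ w, Sim G e y w ∧ T.E G x w := by
          rcases hy with hy | hy
          · exact ⟨c, hy, h1⟩
          · exact ⟨d, hy, h2⟩
        have hyx : y ≠ x := fun h => hs (h ▸ sim_refl _)
        rcases hT.star y x hyx with hE | ⟨c', d', h1', h2', h3', h4'⟩
        · exact absurd h4 (hT.nocross x y c d (E_symm hE) h3)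
        · obtain ⟨hcd', -, -, -, -, hncd'⟩ := nc_step htool hG he hT h3' h4' (nc_symm hnc)
          obtain ⟨hl1', hl2'⟩ := first_lt hfirst hT.toIsTri h1' h2' h3' h4'
          rw [nx_symm T y x] at hl1' hl2'
          have hy' : Sim G e y c' ∨ Sim G e y d' := by
            by_contra hcon
            rw [not_or] at hcon
            have h5 := tool_sep hw hcd' hcon
            have h6 := (cross_iff y x c' d').1 h4'
            have h7 := sign_aux h5 h6
            exact hT.nocross w x c' d' (E_symm hxw) h3' ((cross_iff w x c' d').2 h7)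
          apply Cl.symm hT.toIsTri hP hX
          rcases hy' with hy' | hy'
          · exact red htool hG he hT hP r1 r2 hX h1' h2' h3' h4' (hpr.symm hX) hy'
              (ih c' x hl2')
          · exact red htool hG he hT hP r1 r2 hX h2' h1' (E_symm h3')
              (cross_comm_right.1 h4') (hpr.symm hX) hy' (ih d' x hl1')
      · -- the extra unit
        rw [not_or] at hy
        obtain ⟨hyc', hyd'⟩ := hy
        obtain ⟨-, -, a, b, hab, hax, hby, hXab⟩ := hpr
        have hac : ¬ Sim G e a c := fun h => hxc (sim_trans (sim_symm hax) h)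
        have had : ¬ Sim G e a d := fun h => hxd (sim_trans (sim_symm hax) h)
        have hbc : ¬ Sim G e b c := fun h => hyc' (sim_trans (sim_symm hby) h)
        have hbd : ¬ Sim G e b d := fun h => hyd' (sim_trans (sim_symm hby) h)
        have h5 : Cross a y c d := cross_slide h4 (sim_symm hax) hcd hxc hxd
        have h6 : Cross a b c d := cross_comm_left.1
          (cross_slide (cross_comm_left.1 h5) (sim_symm hby) hcd hyc' hyd')
        obtain ⟨n1, n2, n3, n4⟩ := t6 a b c d h6 (hQnc a b hab) hcd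
        obtain ⟨m1, m2, m3, m4⟩ := t6 x y c d h4 hnc hcd
        obtain ⟨u1, u2⟩ := hunit a b c d h6 hab hcd hac hbd had hbc hscd
        rw [hX.slide a x c hax n1 m1 hac, hX.slide b y d hby n2 m2 hbd, hXab] at u1
        rw [hX.slide a x d hax n3 m3 had, hX.slide b y c hby n4 m4 hbc, hXab] at u2
        right
        intro m hm hrz
        rcases (step_supp hP h1 h2 h3 h4 m).1 hm with h7 | h7
        · obtain ⟨-, h8⟩ := alive hT r2 hrz (nc_symm hyd) hncd h1 h7
          have h9 := hub d y (nc_symm hyd) (fun h => hyd' (sim_symm h)) _ h7 h8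
          have := x1_step hX hT.toIsTri h1 h3 h9 (n := 1) u1
          linarith
        · rw [del_symm hT.toIsTri c d] at h7
          obtain ⟨-, h8⟩ := alive hT r2 hrz (nc_symm hyc) (fun h => hncd (Ge_symm h)) h2 h7
          have h9 := hub c y (nc_symm hyc) (fun h => hyc' (sim_symm h)) _ h7 h8
          rw [hX.symm c d] at u2
          have := x1_step hX hT.toIsTri h2 (E_symm h3) h9 (n := 1) u2
          linarith
  rcases key a b ⟨hQnc a b hab, hQns a b hab, a, b, hab, sim_refl a, sim_refl b, rfl⟩ with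
    ⟨x', y', h5, h6, h7, ν, h8, _, _, h11⟩ | h
  · refine Or.inl ⟨x', y', h5, h6, h7, fun m hm hrz => ?_⟩
    rw [h11 m hm hrz, add_sub_cancel_left]
    exact h8
  · exact Or.inr h

end Pool.Agent.Lib.MP_eee7a8_ag.TB.C72
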